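import Mathlib
import Pool.Agent.W289.SL.Thm2
import Pool.Agent.W289.SL.LogEx

set_option autoImplicit false

namespace Pool.Agent.Results.MP_fc6b1e_nt.QuarticCM

open NumberField Pool.Agent.W289.SL

/-- Let `F` be a real quadratic field, `K` a totally imaginary quadratic extension of `F`, `P` a
finite set of primes and `T` a finite set of nonzero elements of `K`. Then there is a quadratic
extension `H = K(√α)` of `K`, different from all `K(√β)` with `β ∈ T` and with `χ ∘ c ≠ χ` for its
quadratic character `χ`, such that the `Σ`-Leopoldt conjecture holds for `χ`, for every prime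
`p ∈ P` and every CM type `Σ` of `K` with values in `ℂ_p`. -/
theorem result (P : Finset ℕ) (hP : ∀ p ∈ P, p.Prime) (F K : Type) [Field F] [NumberField F]
    [IsTotallyReal F] [Field K] [NumberField K] [IsTotallyComplex K] [Algebra F K]
    (hF : Module.finrank ℚ F = 2) (hFK : Module.finrank F K = 2)
    (T : Finset K) (hT : (0 : K) ∉ T) :
    ∃ α : K, ¬ IsSquare α ∧ (∀ β ∈ T, ¬ IsSquare (β * α)) ∧
      (∀ c : K ≃ₐ[F] K, c ≠ 1 → ¬ IsSquare (α * c α)) ∧
      ∀ (H : Type) [Field H] [NumberField H] [Algebra K H] (θ : H),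
        Module.finrank K H = 2 → θ ^ 2 = algebraMap K H α →
        ∀ (p : ℕ) [Fact p.Prime], p ∈ P → ∀ S : Set (K →+* ℂ_[p]), IsCMType p F K S →
          ∀ χ : (H ≃ₐ[K] H) →* ℂ_[p]ˣ, χ ≠ 1 → SigmaLeopoldt p K H S χ :=
  main2 P hP F K hF hFK T hT

end Pool.Agent.Results.MP_fc6b1e_nt.QuarticCM
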